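import Pool.Agent.Q256.T6.Def

set_option autoImplicit false

/-!
The number of generators with bounded conjugates of an ideal (lemma job for helper256).
-/

namespace Pool.Agent.Q95.T6

open NumberField Polynomial Finset

/-- bounded number of integers all of whose conjugates are at most `3`. -/
lemma card_small (r : ℕ) : ∃ U : ℕ, ∀ (K : Type) [Field K] [NumberField K],
    Module.finrank ℚ K = r → ∀ s : Finset (𝓞 K), (∀ x ∈ s, ∀ σ : K →+* ℂ, ‖σ x‖ ≤ 3) →
      s.card ≤ U := by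
  classical
  set M : ℕ := 3 ^ r * r.choose (r / 2) with hM
  refine ⟨r * (2 * M + 1) ^ (r + 1), fun K _ _ hr s hs => ?_⟩
  set Φ : 𝓞 K → (Fin (r + 1) → ℤ) := fun x i => (minpoly ℤ (x : K)).coeff i with hΦ
  have hdeg : ∀ x : 𝓞 K, (minpoly ℤ (x : K)).natDegree ≤ r := by
    intro x
    have h1 : (minpoly ℤ (x : K)).natDegree = (minpoly ℚ (x : K)).natDegree := by
      rw [minpoly.isIntegrallyClosed_eq_field_fractions' ℚ x.isIntegral_coe]
      exact ((minpoly.monic x.isIntegral_coe).natDegree_map _).symm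
    rw [h1, ← hr]
    exact minpoly.natDegree_le _
  have hfib : ∀ v ∈ s.image Φ, (s.filter fun x => Φ x = v).card ≤ r := by
    intro v hv
    obtain ⟨y, hy, rfl⟩ := Finset.mem_image.1 hv
    set p : K[X] := (minpoly ℤ (y : K)).map (algebraMap ℤ K) with hp
    have hp0 : p ≠ 0 := by
      have := (minpoly.monic y.isIntegral_coe).map (algebraMap ℤ K)
      exact this.ne_zero
    have hsub : ((s.filter fun x => Φ x = Φ y).image (fun x : 𝓞 K => (x : K))) ⊆ p.roots.toFinset := by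
      intro z hz
      obtain ⟨x, hx, rfl⟩ := Finset.mem_image.1 hz
      have hx2 := (Finset.mem_filter.1 hx).2
      have hxy : minpoly ℤ (x : K) = minpoly ℤ (y : K) := by
        ext i
        by_cases hi : i < r + 1
        · exact congrFun hx2 ⟨i, hi⟩
        · rw [coeff_eq_zero_of_natDegree_lt (by have := hdeg x; omega),
            coeff_eq_zero_of_natDegree_lt (by have := hdeg y; omega)]
      rw [Multiset.mem_toFinset, mem_roots hp0, IsRoot.def, hp, eval_map_algebraMap, ← hxy]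
      exact minpoly.aeval ℤ (x : K)
    have h1 : (s.filter fun x => Φ x = Φ y).card =
        ((s.filter fun x => Φ x = Φ y).image (fun x : 𝓞 K => (x : K))).card :=
      (Finset.card_image_of_injective _ RingOfIntegers.coe_injective).symm
    rw [h1]
    refine (Finset.card_le_card hsub).trans ?_
    refine (Multiset.toFinset_card_le _).trans ((card_roots' _).trans ?_)
    exact (natDegree_map_le).trans (hdeg y)
  refine (Finset.card_le_mul_card_image s r hfib).trans ?_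
  refine Nat.mul_le_mul_left r ?_
  have hbox : s.image Φ ⊆ Fintype.piFinset (fun _ : Fin (r + 1) => Finset.Icc (-(M : ℤ)) M) := by
    intro v hv
    obtain ⟨x, hx, rfl⟩ := Finset.mem_image.1 hv
    rw [Fintype.mem_piFinset]
    intro i
    have h1 := Embeddings.coeff_bdd_of_norm_le (A := ℂ) (x := (x : K)) (hs x hx) i
    have h2 : (minpoly ℚ (x : K)).coeff i = ((minpoly ℤ (x : K)).coeff i : ℤ) := by
      rw [minpoly.isIntegrallyClosed_eq_field_fractions' ℚ x.isIntegral_coe, coeff_map]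
      simp
    rw [h2, hr] at h1
    have h3 : |((minpoly ℤ (x : K)).coeff i : ℝ)| ≤ (M : ℝ) := by
      have h4 : max (3 : ℝ) 1 = 3 := by norm_num
      rw [h4] at h1
      have h5 : ‖(((minpoly ℤ (x : K)).coeff i : ℤ) : ℚ)‖ =
          |((minpoly ℤ (x : K)).coeff i : ℝ)| := by
        rw [← Rat.norm_cast_real]; simp
      rw [h5] at h1
      rw [hM]; push_cast
      exact h1
    have h6 : |(minpoly ℤ (x : K)).coeff i| ≤ (M : ℤ) := by
      exact_mod_cast h3
    exact Finset.mem_Icc.2 (abs_le.1 h6)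
  refine (Finset.card_le_card hbox).trans ?_
  rw [Fintype.card_piFinset]
  simp only [Int.card_Icc, Finset.prod_const, Finset.card_univ, Fintype.card_fin]
  refine Nat.pow_le_pow_left ?_ _
  omega

theorem gens : Pool.Agent.Q256.T6.S_Gens := by
  classical
  intro r
  obtain ⟨U, hU⟩ := card_small r
  refine ⟨U * (2 * (r : ℝ) + 3) ^ r, fun K _ _ hr I B hI hB => ?_⟩
  have hlogB : 0 ≤ Real.log B := Real.log_nonneg hB
  set Z : Set (𝓞 K) := {z : 𝓞 K | Ideal.span {z} = I ∧ ∀ σ : K →+* ℂ, ‖σ z‖ ≤ B} with hZ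
  have hfin : Z.Finite := by
    have h1 := Embeddings.finite_of_norm_le K ℂ B
    have h2 : Z ⊆ (fun x : 𝓞 K => (x : K)) ⁻¹' {x : K | IsIntegral ℤ x ∧ ∀ φ : K →+* ℂ, ‖φ x‖ ≤ B} := by
      intro z hz
      exact ⟨z.isIntegral_coe, hz.2⟩
    exact (h1.preimage RingOfIntegers.coe_injective.injOn).subset h2
  set s := hfin.toFinset with hs
  have hmem : ∀ z ∈ s, Ideal.span {z} = I ∧ ∀ σ : K →+* ℂ, ‖σ z‖ ≤ B := fun z hz => by
    simpa [hs, hZ] using hz
  have hncard : Z.ncard = s.card := Set.ncard_eq_toFinset_card Z hfin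
  rw [hncard]
  set f : 𝓞 K → ((K →ₐ[ℚ] ℂ) → ℤ) := fun z σ => ⌊Real.log ‖σ z‖⌋ with hf
  have hne : ∀ z ∈ s, z ≠ 0 := by
    rintro z hz rfl
    apply hI
    rw [← (hmem 0 hz).1]; simp
  have hpos : ∀ z ∈ s, ∀ σ : K →ₐ[ℚ] ℂ, 0 < ‖σ z‖ := by
    intro z hz σ
    rw [norm_pos_iff]
    intro h0
    apply hne z hz
    have : (z : K) = 0 := (map_eq_zero σ).1 h0
    exact RingOfIntegers.coe_injective (by simpa using this)
  have hle : ∀ z ∈ s, ∀ σ : K →ₐ[ℚ] ℂ, Real.log ‖σ z‖ ≤ Real.log B := by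
    intro z hz σ
    exact Real.log_le_log (hpos z hz σ) ((hmem z hz).2 (σ : K →+* ℂ))
  have hcardσ : Fintype.card (K →ₐ[ℚ] ℂ) = r := by
    rw [AlgHom.card, hr]
  have hge : ∀ z ∈ s, ∀ σ : K →ₐ[ℚ] ℂ, -(r * Real.log B) ≤ Real.log ‖σ z‖ := by
    intro z hz σ
    have h1 : (0 : ℝ) ≤ ∑ τ : K →ₐ[ℚ] ℂ, Real.log ‖τ z‖ := by
      rw [← Real.log_prod (fun τ _ => (hpos z hz τ).ne')]
      apply Real.log_nonneg
      rw [← norm_prod, ← Algebra.norm_eq_prod_embeddings ℚ ℂ (z : K)]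
      have h2 : Algebra.norm ℚ (z : K) = ((Algebra.norm ℤ z : ℤ) : ℚ) := (Algebra.coe_norm_int z).symm
      rw [h2]
      have h3 : Algebra.norm ℤ z ≠ 0 := by
        rw [Algebra.norm_ne_zero_iff]; exact hne z hz
      have h4 : (1 : ℝ) ≤ |((Algebra.norm ℤ z : ℤ) : ℝ)| := by
        exact_mod_cast Int.one_le_abs h3
      simpa using h4
    rw [← Finset.add_sum_erase _ _ (Finset.mem_univ σ)] at h1
    have h5 : ∑ τ ∈ Finset.univ.erase σ, Real.log ‖τ z‖ ≤ r * Real.log B := by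
      refine (Finset.sum_le_card_nsmul _ _ (Real.log B) (fun τ _ => hle z hz τ)).trans ?_
      rw [nsmul_eq_mul]
      refine mul_le_mul_of_nonneg_right ?_ hlogB
      rw [← hcardσ]
      exact_mod_cast (Finset.card_erase_le.trans (by simp))
    linarith
  set T : ℕ := ⌈r * Real.log B⌉₊ + ⌈Real.log B⌉₊ with hT
  -- the image is in a box
  have hbox : s.image f ⊆ Fintype.piFinset
      (fun _ : (K →ₐ[ℚ] ℂ) => Finset.Icc (-((⌈r * Real.log B⌉₊ : ℕ) : ℤ)) ((⌈Real.log B⌉₊ : ℕ) : ℤ)) := by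
    intro v hv
    obtain ⟨z, hz, rfl⟩ := Finset.mem_image.1 hv
    rw [Fintype.mem_piFinset]
    intro σ
    rw [Finset.mem_Icc]
    constructor
    · rw [hf, Int.le_floor]
      push_cast
      have := Nat.le_ceil (r * Real.log B)
      have h2 := hge z hz σ
      linarith
    · rw [hf]
      have h1 : (⌊Real.log ‖σ z‖⌋ : ℝ) ≤ ((⌈Real.log B⌉₊ : ℕ) : ℝ) :=
        (Int.floor_le _).trans ((hle z hz σ).trans (Nat.le_ceil _))
      exact_mod_cast h1
  have hcardim : ((s.image f).card : ℝ) ≤ ((2 * (r : ℝ) + 3) * (1 + Real.log B)) ^ r := by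
    have h1 := Finset.card_le_card hbox
    rw [Fintype.card_piFinset] at h1
    simp only [Int.card_Icc, Finset.prod_const, Finset.card_univ, hcardσ] at h1
    have h2 : ((((⌈Real.log B⌉₊ : ℕ) : ℤ) + 1 - -((⌈r * Real.log B⌉₊ : ℕ) : ℤ)).toNat) =
        ⌈Real.log B⌉₊ + 1 + ⌈r * Real.log B⌉₊ := by omega
    rw [h2] at h1
    have h3 : ((s.image f).card : ℝ) ≤ ((⌈Real.log B⌉₊ + 1 + ⌈r * Real.log B⌉₊ : ℕ) : ℝ) ^ r := by
      exact_mod_cast h1
    refine h3.trans (pow_le_pow_left₀ (by positivity) ?_ r)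
    push_cast
    have h4 := (Nat.ceil_lt_add_one hlogB).le
    have h5 := (Nat.ceil_lt_add_one (mul_nonneg (Nat.cast_nonneg r) hlogB)).le
    have hr0 : (0 : ℝ) ≤ r := Nat.cast_nonneg r
    nlinarith [mul_nonneg hr0 hlogB]
  -- the fibres
  have hfib : ∀ v ∈ s.image f, (s.filter fun x => f x = v).card ≤ U := by
    intro v hv
    obtain ⟨z₀, hz₀, rfl⟩ := Finset.mem_image.1 hv
    have hq : ∀ z ∈ s.filter (fun x => f x = f z₀), ∃ u : 𝓞 K, z = u * z₀ := by
      intro z hz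
      have hz1 := (hmem z (Finset.mem_filter.1 hz).1).1
      have hz2 := (hmem z₀ hz₀).1
      have : z ∈ Ideal.span {z₀} := by
        rw [hz2, ← hz1]; exact Ideal.mem_span_singleton_self z
      obtain ⟨u, hu⟩ := Ideal.mem_span_singleton'.1 this
      exact ⟨u, hu.symm⟩
    choose! g hg using hq
    have hinj : Set.InjOn g (s.filter (fun x => f x = f z₀)) := by
      intro x hx y hy hxy
      rw [hg x (by simpa using hx), hg y (by simpa using hy), hxy]
    rw [← Finset.card_image_of_injOn hinj]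
    apply hU K hr
    intro u hu σ
    obtain ⟨z, hz, rfl⟩ := Finset.mem_image.1 hu
    have hz1 := (Finset.mem_filter.1 hz).1
    have hz2 := (Finset.mem_filter.1 hz).2
    have h1 := congrFun hz2 (RingHom.toRatAlgHom σ)
    simp only [hf] at h1
    have hσ : ∀ y : 𝓞 K, (RingHom.toRatAlgHom σ) y = σ y := fun y => rfl
    rw [hσ, hσ] at h1
    have hp1 : 0 < ‖σ z‖ := by have := hpos z hz1 (RingHom.toRatAlgHom σ); rwa [hσ] at this
    have hp2 : 0 < ‖σ z₀‖ := by have := hpos z₀ hz₀ (RingHom.toRatAlgHom σ); rwa [hσ] at this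
    have h2 : Real.log ‖σ z‖ ≤ Real.log ‖σ z₀‖ + 1 := by
      have ha := Int.lt_floor_add_one (Real.log ‖σ z‖)
      have hb := Int.floor_le (Real.log ‖σ z₀‖)
      rw [h1] at ha
      linarith
    have h3 : ‖σ z‖ = ‖σ (g z)‖ * ‖σ z₀‖ := by
      have h4 := congrArg (fun y : 𝓞 K => ‖σ y‖) (hg z hz)
      simpa using h4
    have hp3 : 0 < ‖σ (g z)‖ := by
      by_contra hcon
      have : ‖σ (g z)‖ = 0 := le_antisymm (not_lt.1 hcon) (norm_nonneg _)
      rw [h3, this, zero_mul] at hp1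
      exact lt_irrefl _ hp1
    rw [h3, Real.log_mul hp3.ne' hp2.ne'] at h2
    have h5 : Real.log ‖σ (g z)‖ ≤ 1 := by linarith
    have h6 : ‖σ (g z)‖ ≤ Real.exp 1 := (Real.log_le_iff_le_exp hp3).1 h5
    exact h6.trans (by have := Real.exp_one_lt_d9; linarith)
  have hmain : (s.card : ℝ) ≤ (U : ℝ) * ((s.image f).card : ℝ) := by
    exact_mod_cast Finset.card_le_mul_card_image s U hfib
  calc (s.card : ℝ) ≤ (U : ℝ) * ((s.image f).card : ℝ) := hmain
    _ ≤ U * (((2 * (r : ℝ) + 3) * (1 + Real.log B)) ^ r) :=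
        mul_le_mul_of_nonneg_left hcardim (Nat.cast_nonneg U)
    _ = U * (2 * (r : ℝ) + 3) ^ r * (1 + Real.log B) ^ r := by rw [mul_pow]; ring

end Pool.Agent.Q95.T6
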