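import Pool.Agent.Q256.T6.Def
import Pool.Agent.H510R2.Div

set_option autoImplicit false

/-!
The number of ideals of a given norm (lemma job for helper256).
-/

namespace Pool.Agent.Q95.T6

open NumberField UniqueFactorizationMonoid

variable {α : Type*} [DecidableEq α]

/-- the number of sub-multisets. -/
lemma G_add (s t : Multiset α) :
    (Finset.Iic (s + t)).card ≤ (Finset.Iic s).card * (Finset.Iic t).card := by
  rw [← Finset.card_product]
  refine Finset.card_le_card_of_injOn (fun u => (u ∩ s, u - s)) ?_ ?_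
  · intro u hu
    rw [Finset.mem_coe, Finset.mem_Iic] at hu
    rw [Finset.mem_coe, Finset.mem_product, Finset.mem_Iic, Finset.mem_Iic]
    refine ⟨Multiset.inter_le_right, ?_⟩
    exact tsub_le_iff_left.2 hu
  · intro u _ v _ huv
    have h1 := congrArg Prod.fst huv
    have h2 := congrArg Prod.snd huv
    simp only at h1 h2
    rw [← Multiset.sub_add_inter u s, h1, h2, Multiset.sub_add_inter]

lemma G_nsmul (k : ℕ) (s : Multiset α) :
    (Finset.Iic (k • s)).card ≤ (k + 1) ^ s.card := by
  induction s using Multiset.induction_on with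
  | empty => simp [Multiset.card_Iic]
  | cons a s ih =>
    rw [← Multiset.singleton_add, nsmul_add, Multiset.card_add, pow_add]
    refine (G_add _ _).trans (Nat.mul_le_mul ?_ ih)
    rw [Multiset.card_Iic, Multiset.nsmul_singleton]
    rcases Nat.eq_zero_or_pos k with rfl | hk
    · simp
    · rw [Multiset.toFinset_replicate, if_neg hk.ne']
      simp

section

variable {K : Type} [Field K] [NumberField K]

open scoped Classical in
/-- the number of prime factors of `p`. -/
lemma card_factors (p : ℕ) (hp : p.Prime) :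
    (normalizedFactors (Ideal.span {(p : 𝓞 K)})).card ≤ Module.finrank ℚ K := by
  have hp0 : (p : 𝓞 K) ≠ 0 := by exact_mod_cast hp.ne_zero
  have hs0 : Ideal.span {(p : 𝓞 K)} ≠ 0 := by
    rw [Ne, Ideal.zero_eq_bot, Ideal.span_singleton_eq_bot]; exact hp0
  have hN : Ideal.absNorm (Ideal.span {(p : 𝓞 K)}) = p ^ Module.finrank ℚ K := by
    rw [Ideal.absNorm_span_singleton]
    have : (p : 𝓞 K) = algebraMap ℤ (𝓞 K) (p : ℤ) := by simp
    rw [this, Algebra.norm_algebraMap, RingOfIntegers.rank K, Int.natAbs_pow, Int.natAbs_natCast]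
  have hprod : (normalizedFactors (Ideal.span {(p : 𝓞 K)})).prod = Ideal.span {(p : 𝓞 K)} :=
    Ideal.prod_normalizedFactors_eq_self hs0
  have h1 : p ^ (normalizedFactors (Ideal.span {(p : 𝓞 K)})).card ≤
      ((normalizedFactors (Ideal.span {(p : 𝓞 K)})).map Ideal.absNorm).prod := by
    rw [← Multiset.card_map Ideal.absNorm]
    apply Multiset.pow_card_le_prod
    intro x hx
    obtain ⟨P, hP, rfl⟩ := Multiset.mem_map.1 hx
    have hPp := prime_of_normalized_factor P hP
    have hdvd : P ∣ Ideal.span {(p : 𝓞 K)} := dvd_of_mem_normalizedFactors hP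
    have h2 : Ideal.absNorm P ∣ p ^ Module.finrank ℚ K := by
      rw [← hN]; exact map_dvd Ideal.absNorm hdvd
    obtain ⟨k, _, hk⟩ := (Nat.dvd_prime_pow hp).1 h2
    have hk0 : k ≠ 0 := by
      rintro rfl
      rw [pow_zero, Ideal.absNorm_eq_one_iff] at hk
      apply hPp.not_isUnit
      rw [hk, ← Ideal.one_eq_top]; exact isUnit_one
    rw [hk]
    exact Nat.le_self_pow hk0 p
  rw [← map_multiset_prod, hprod, hN] at h1
  exact (Nat.pow_le_pow_iff_right hp.one_lt).1 h1

open scoped Classical in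
/-- number of divisors of `(n)`. -/
lemma card_divs (n : ℕ) (hn : n ≠ 0) :
    (Finset.Iic (normalizedFactors (Ideal.span {(n : 𝓞 K)}))).card ≤
      n.divisors.card ^ Module.finrank ℚ K := by
  induction n using Nat.recOnPosPrimePosCoprime with
  | zero => exact absurd rfl hn
  | one =>
    have : Ideal.span {((1 : ℕ) : 𝓞 K)} = 1 := by simp
    rw [this, normalizedFactors_one]
    simp [Multiset.card_Iic]
  | prime_pow p k hp hk =>
    have h1 : Ideal.span {((p ^ k : ℕ) : 𝓞 K)} = Ideal.span {(p : 𝓞 K)} ^ k := by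
      rw [Ideal.span_singleton_pow]; push_cast; rfl
    rw [h1, normalizedFactors_pow, Nat.divisors_prime_pow hp, Finset.card_map, Finset.card_range]
    refine (G_nsmul _ _).trans ?_
    exact Nat.pow_le_pow_right (Nat.succ_pos _) (card_factors p hp)
  | coprime a b ha hb hab iha ihb =>
    have ha0 : a ≠ 0 := by omega
    have hb0 : b ≠ 0 := by omega
    have h1 : Ideal.span {((a * b : ℕ) : 𝓞 K)} =
        Ideal.span {(a : 𝓞 K)} * Ideal.span {(b : 𝓞 K)} := by
      rw [Ideal.span_singleton_mul_span_singleton]; push_cast; rfl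
    have hs : ∀ m : ℕ, m ≠ 0 → Ideal.span {(m : 𝓞 K)} ≠ 0 := by
      intro m hm
      rw [Ne, Ideal.zero_eq_bot, Ideal.span_singleton_eq_bot]; exact_mod_cast hm
    rw [h1, normalizedFactors_mul (hs a ha0) (hs b hb0), hab.card_divisors_mul, mul_pow]
    exact (G_add _ _).trans (Nat.mul_le_mul (iha ha0) (ihb hb0))

open scoped Classical in
lemma ncard_le (n : ℕ) (hn : n ≠ 0) :
    {I : Ideal (𝓞 K) | Ideal.absNorm I = n}.ncard ≤ n.divisors.card ^ Module.finrank ℚ K := by
  refine le_trans ?_ (card_divs n hn)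
  rw [← Set.ncard_coe_finset]
  refine Set.ncard_le_ncard_of_injOn (fun I => normalizedFactors I) ?_ ?_ (Finset.finite_toSet _)
  · intro I hI
    rw [Set.mem_ofPred_eq] at hI
    have hI0 : I ≠ 0 := by
      rintro rfl
      rw [Ideal.zero_eq_bot, Ideal.absNorm_bot] at hI
      exact hn hI.symm
    have hn0 : Ideal.span {(n : 𝓞 K)} ≠ 0 := by
      rw [Ne, Ideal.zero_eq_bot, Ideal.span_singleton_eq_bot]; exact_mod_cast hn
    rw [Finset.mem_coe, Finset.mem_Iic, ← dvd_iff_normalizedFactors_le_normalizedFactors hI0 hn0,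
      Ideal.dvd_iff_le, Ideal.span_le, Set.singleton_subset_iff]
    rw [← hI]
    exact Ideal.absNorm_mem I
  · intro I hI J hJ hIJ
    rw [Set.mem_ofPred_eq] at hI hJ
    have hI0 : I ≠ 0 := by
      rintro rfl
      rw [Ideal.zero_eq_bot, Ideal.absNorm_bot] at hI
      exact hn hI.symm
    have hJ0 : J ≠ 0 := by
      rintro rfl
      rw [Ideal.zero_eq_bot, Ideal.absNorm_bot] at hJ
      exact hn hJ.symm
    simp only at hIJ
    rw [← Ideal.prod_normalizedFactors_eq_self hI0, hIJ, Ideal.prod_normalizedFactors_eq_self hJ0]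

end

theorem ideals : Pool.Agent.Q256.T6.S_Ideals := by
  intro r ε hε
  obtain ⟨C, hC0, hC⟩ := Pool.Agent.H510R2.divisor_bound (ε / (r + 1)) (by positivity)
  refine ⟨C ^ r, fun K _ _ hr n hn => ?_⟩
  have h1 := ncard_le (K := K) n (by omega)
  rw [hr] at h1
  have h2 : ({I : Ideal (𝓞 K) | Ideal.absNorm I = n}.ncard : ℝ) ≤ (n.divisors.card : ℝ) ^ r := by
    exact_mod_cast h1
  have hn1 : (1 : ℝ) ≤ n := by exact_mod_cast hn
  calc ({I : Ideal (𝓞 K) | Ideal.absNorm I = n}.ncard : ℝ) ≤ (n.divisors.card : ℝ) ^ r := h2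
    _ ≤ (C * (n : ℝ) ^ (ε / (r + 1))) ^ r :=
        pow_le_pow_left₀ (Nat.cast_nonneg _) (hC n hn) r
    _ = C ^ r * (n : ℝ) ^ (ε / (r + 1) * r) := by
        rw [mul_pow, ← Real.rpow_natCast ((n : ℝ) ^ _), ← Real.rpow_mul (by linarith)]
    _ ≤ C ^ r * (n : ℝ) ^ ε := by
        refine mul_le_mul_of_nonneg_left ?_ (by positivity)
        apply Real.rpow_le_rpow_of_exponent_le hn1
        rw [div_mul_eq_mul_div, div_le_iff₀ (by positivity)]
        nlinarith

end Pool.Agent.Q95.T6
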